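import Pool.Agent.H9.Cov

set_option autoImplicit false

namespace Pool.Agent.Results.MP_acc8c3_co.Full

open Pool.Agent.H9.Cov

theorem result : ∀ k : ℕ, 1 ≤ k → ∃ (X Y : Type) (_ : Fintype X) (_ : Fintype Y)
    (_ : Nonempty X) (_ : Nonempty Y) (c : X → Y → Fin k), Spanning c ∧
    ∀ 𝒞 : Finset (Set (X ⊕ Y)), IsComponentCover c 𝒞 →
      2 * (k : ℝ) - 4 ≤ (𝒞.card : ℝ) ∧ 2 * (k : ℝ) - 4 * Real.sqrt k ≤ (𝒞.card : ℝ) := by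
  intro k hk
  obtain ⟨X, Y, h1, h2, h3, h4, c, hc, h⟩ := main k hk
  refine ⟨X, Y, h1, h2, h3, h4, c, hc, fun 𝒞 h𝒞 => ?_⟩
  have e : ((2 * k : ℕ) : ℝ) ≤ ((𝒞.card + 4 : ℕ) : ℝ) := by exact_mod_cast h 𝒞 h𝒞
  push_cast at e
  have e2 : (1 : ℝ) ≤ Real.sqrt k := Real.one_le_sqrt.2 (by exact_mod_cast hk)
  constructor <;> linarith

end Pool.Agent.Results.MP_acc8c3_co.Full
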